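import Pool.Agent.Helper93.HZ.Spec1
import Pool.Agent.Helper93.HZ.Lib

/-! # HZ: FV (no free vertex lies in a triangle of a minimal complex) -/

set_option autoImplicit false

open MulAction Pointwise

namespace Pool.Agent.Helper93.HZ

theorem st_FV (hCON : ST_CON) : ST_FV := by
  intro G _ D K hmin x y z hxyz hx
  have hadj : K.adj x y := K.tri_adj _ _ _ hxyz
  obtain ⟨H, hH⟩ : ∃ H : Subgroup G, (((∀ g : G, g • x ≠ y) ∧ H = stabilizer G y) ∨
      ∃ g0 : G, y = g0 • x ∧ H = Subgroup.zpowers g0) := by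
    by_cases h : ∃ g : G, g • x = y
    · obtain ⟨g, hg⟩ := h
      exact ⟨Subgroup.zpowers g, Or.inr ⟨g, hg.symm, rfl⟩⟩
    · push Not at h
      exact ⟨stabilizer G y, Or.inl ⟨h, rfl⟩⟩
  obtain ⟨K', π, -, hπ, -, -, -, -, hr⟩ := hCON G D K x y H hadj hx hH
  have hxy : π x = π y := by
    rw [hπ]
    refine Or.inr ⟨1, Or.inr ⟨1, H.one_mem, rfl⟩, Or.inl (one_smul _ _)⟩
  have hpos : 0 < oc G {s : Set K.V | ∃ x y z, K.tri x y z ∧ π x = π y ∧ s = {x, y, z}} := by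
    refine oc_pos (K.finT.mono ?_) ⟨{x, y, z}, x, y, z, hxyz, hxy, rfl⟩
    rintro s ⟨x, y, z, h, -, rfl⟩
    exact ⟨x, y, z, h, rfl⟩
  have := hmin K'
  omega

end Pool.Agent.Helper93.HZ
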