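import Pool.Agent.Helper93.HZ.Spec2
import Pool.Agent.Helper93.HZ.Lib

/-! # HZ: RES (the resolved complex as a `Cx`) -/

set_option autoImplicit false

open MulAction Pointwise

namespace Pool.Agent.Helper93.HZ

section

variable {G : Type} [Group G] {D : Setup G} {K : Cx G} {P : Pts D K} (Q : Thr D K P)

/-- the vertices of the resolved complex -/
def RV : Type := {p : AV Q // ∃ q, aadj Q p q}

theorem res_exists : ∃ p q, aadj Q p q := by
  obtain ⟨x⟩ := K.ne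
  obtain ⟨y, hxy⟩ := K.nbr x
  by_cases hx : EllV D K x
  · obtain ⟨u, hu⟩ := P.ell x hx
    exact ⟨_, _, Or.inl ⟨x, y, u, hxy, fun _ => ⟨u, hu⟩, fun _ => hu, rfl, rfl⟩⟩
  · obtain ⟨-, -, -, u, hu⟩ := P.hyp x hx
    exact ⟨_, _, Or.inr ⟨x, u, hx, hu, Or.inl ⟨rfl, rfl⟩⟩⟩

theorem res_conn {p q : AV Q}
    (h : Relation.ReflTransGen (aadj Q) p q) (hp : ∃ r, aadj Q p r) (hq : ∃ r, aadj Q q r) :
    Relation.ReflTransGen (fun a b : RV Q => aadj Q a.1 b.1) ⟨p, hp⟩ ⟨q, hq⟩ := by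
  induction h with
  | refl => exact Relation.ReflTransGen.refl
  | tail h1 h2 ih => exact (ih ⟨_, h2⟩).tail h2

theorem res_sc (h : SC (aadj Q) (atri Q)) (hrot : ∀ p q r, atri Q p q r → atri Q q r p)
    (htri : ∀ p q r, atri Q p q r → aadj Q p q) (hs : ∀ p q, aadj Q p q → aadj Q q p) :
    SC (fun a b : RV Q => aadj Q a.1 b.1) (fun a b c : RV Q => atri Q a.1 b.1 c.1) := by
  classical
  intro H _ c h1 h2
  set c' : AV Q → AV Q → H := fun p q =>
    if h : (∃ r, aadj Q p r) ∧ (∃ r, aadj Q q r) then c ⟨p, h.1⟩ ⟨q, h.2⟩ else 1 with hc'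
  have hc : ∀ (p q : AV Q) (hp : ∃ r, aadj Q p r) (hq : ∃ r, aadj Q q r),
      c' p q = c ⟨p, hp⟩ ⟨q, hq⟩ := by
    intro p q hp hq
    rw [hc']
    exact dif_pos ⟨hp, hq⟩
  have k1 : ∀ p q, aadj Q p q → c' p q * c' q p = 1 := by
    intro p q hpq
    rw [hc p q ⟨_, hpq⟩ ⟨_, hs _ _ hpq⟩, hc q p ⟨_, hs _ _ hpq⟩ ⟨_, hpq⟩]
    exact h1 ⟨p, ⟨_, hpq⟩⟩ ⟨q, ⟨_, hs _ _ hpq⟩⟩ hpq
  have k2 : ∀ p q r, atri Q p q r → c' p q * c' q r * c' r p = 1 := by
    intro p q r hpqr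
    have e1 : ∃ s, aadj Q p s := ⟨_, htri _ _ _ hpqr⟩
    have e2 : ∃ s, aadj Q q s := ⟨_, htri _ _ _ (hrot _ _ _ hpqr)⟩
    have e3 : ∃ s, aadj Q r s := ⟨_, htri _ _ _ (hrot _ _ _ (hrot _ _ _ hpqr))⟩
    rw [hc p q e1 e2, hc q r e2 e3, hc r p e3 e1]
    exact h2 ⟨p, e1⟩ ⟨q, e2⟩ ⟨r, e3⟩ hpqr
  obtain ⟨f, hf⟩ := h H c' k1 k2
  refine ⟨fun a => f a.1, fun a b hab => ?_⟩
  rw [← hf _ _ hab, hc _ _ a.2 b.2]
  rfl

end

theorem st_RES (hRSYM : ST_RSYM) (hRFIN : ST_RFIN) (hRSTAB : ST_RSTAB) (hRCON : ST_RCON)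
    (hRSC : ST_RSC) : ST_RES := by
  intro G _ D K P Q
  obtain ⟨rs1, rs2, rs3, rs4, rs5, rs6, rs7⟩ := hRSYM G D K P Q
  obtain ⟨f1, f2, f3⟩ := hRFIN G D K P Q
  obtain ⟨s1, -, -⟩ := hRSTAB G D K P Q
  let act : MulAction G (RV Q) :=
    { smul := fun g p => ⟨g • p.1, by
        obtain ⟨q, hq⟩ := p.2
        exact ⟨g • q, rs6 g _ _ hq⟩⟩
      one_smul := fun p => Subtype.ext (one_smul G p.1)
      mul_smul := fun g h p => Subtype.ext (mul_smul g h p.1) }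
  have hval : ∀ (g : G) (p : RV Q), (g • p).1 = g • p.1 := fun g p => rfl
  have hinj : Function.Injective (fun p : RV Q => p.1) := fun p q h => Subtype.ext h
  have hE : FinOrb G {p : RV Q × RV Q | aadj Q p.1.1 p.2.1} := by
    refine (finOrb_image_inj (fun p : RV Q × RV Q => (p.1.1, p.2.1)) ?_ ?_ _).1 (f1.mono ?_)
    · rintro ⟨p, q⟩ ⟨p', q'⟩ h
      obtain ⟨h1, h2⟩ := Prod.ext_iff.1 h
      exact Prod.ext (hinj h1) (hinj h2)
    · rintro g ⟨p, q⟩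
      rfl
    · rintro _ ⟨⟨p, q⟩, h, rfl⟩
      exact h
  have hinj' : Function.Injective (fun s : Set (RV Q) => (fun p : RV Q => p.1) '' s) :=
    Set.image_injective.2 hinj
  have heq' : ∀ (g : G) (s : Set (RV Q)), (fun p : RV Q => p.1) '' (g • s) =
      g • ((fun p : RV Q => p.1) '' s) := by
    intro g s
    ext p
    constructor
    · rintro ⟨_, ⟨q, hq, rfl⟩, rfl⟩
      exact ⟨q.1, ⟨q, hq, rfl⟩, rfl⟩
    · rintro ⟨_, ⟨q, hq, rfl⟩, rfl⟩
      exact ⟨g • q, ⟨q, hq, rfl⟩, rfl⟩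
  have hsub : (fun s : Set (RV Q) => (fun p : RV Q => p.1) '' s) ''
      {s : Set (RV Q) | ∃ x y z : RV Q, atri Q x.1 y.1 z.1 ∧ s = {x, y, z}} ⊆
      {s : Set (AV Q) | ∃ p q r, atri Q p q r ∧ s = {p, q, r}} := by
    rintro _ ⟨_, ⟨x, y, z, h, rfl⟩, rfl⟩
    refine ⟨x.1, y.1, z.1, h, ?_⟩
    show (fun p : RV Q => p.1) '' {x, y, z} = {x.1, y.1, z.1}
    rw [Set.image_insert_eq, Set.image_insert_eq, Set.image_singleton]
  have hT : FinOrb G {s : Set (RV Q) | ∃ x y z : RV Q, atri Q x.1 y.1 z.1 ∧ s = {x, y, z}} :=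
    (finOrb_image_inj _ hinj' heq' _).1 (f2.mono hsub)
  have hr : oc G {s : Set (RV Q) | ∃ x y z : RV Q, atri Q x.1 y.1 z.1 ∧ s = {x, y, z}} ≤
      oc G {s : Set K.V | ∃ x y z, K.tri x y z ∧
      (∃ c, IsCenter (P.N x) (P.N y) (P.N z) c) ∧ s = {x, y, z}} := by
    rw [← oc_image_inj _ hinj' heq']
    exact (oc_mono f2 hsub).trans f3
  have hne : Nonempty (RV Q) := by
    obtain ⟨p, q, h⟩ := res_exists Q
    exact ⟨⟨p, q, h⟩⟩
  refine ⟨{ V := RV Q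
            act := act
            adj := fun p q => aadj Q p.1 q.1
            tri := fun p q r => atri Q p.1 q.1 r.1
            ne := hne
            symm := fun p q h => rs1 _ _ h
            irrefl := fun p h => rs2 _ h
            nbr := ?_
            tri_adj := fun p q r h => rs3 _ _ _ h
            tri_rot := fun p q r h => rs4 _ _ _ h
            tri_swap := fun p q r h => rs5 _ _ _ h
            smul_adj := fun g p q h => rs6 g _ _ h
            smul_tri := fun g p q r h => rs7 g _ _ _ h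
            conn := ?_
            sc := res_sc Q (hRSC G D K P Q) rs4 rs3 rs1
            finE := hE
            finT := hT
            stab := ?_ }, fun p => p.1, hinj, fun g p => rfl, ?_, fun p q => Iff.rfl,
            fun p q r => Iff.rfl, hr⟩
  · rintro ⟨p, q, h⟩
    exact ⟨⟨q, p, rs1 _ _ h⟩, h⟩
  · rintro ⟨p, p', hp⟩ ⟨q, q', hq⟩
    exact res_conn Q (hRCON G D K P Q p p' q q' hp hq) _ _
  · rintro ⟨p, p', hp⟩
    have h1 := s1 p p' hp
    have h2 : ∀ r : RV Q, stabilizer G r = stabilizer G r.1 := by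
      intro r
      ext g
      rw [mem_stabilizer_iff, mem_stabilizer_iff]
      exact ⟨fun h => congrArg Subtype.val h, fun h => Subtype.ext h⟩
    show FC (stabilizer G (show RV Q from ⟨p, p', hp⟩))
    rw [h2]
    exact h1
  · intro p
    constructor
    · rintro ⟨p', rfl⟩
      exact p'.2
    · intro h
      exact ⟨⟨p, h⟩, rfl⟩

end Pool.Agent.Helper93.HZ
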