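import Pool.Agent.Helper93.HZ.Spec2

/-! # HZ: RSTAB (stabilizers of the vertices of the resolved complex) -/

set_option autoImplicit false

open MulAction Pointwise

namespace Pool.Agent.Helper93.HZ

theorem pair_smul_eq {G : Type} [Group G] {U : Type} [MulAction G U] {g : G} {u w : U}
    (h : ({g • u, g • w} : Set U) = {u, w}) : (g • u = u ∧ g • w = w) ∨ (g • u = w ∧ g • w = u) := by
  have h1 : g • u ∈ ({u, w} : Set U) := by rw [← h]; simp
  have h2 : g • w ∈ ({u, w} : Set U) := by rw [← h]; simp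
  rcases h1 with h1 | h1
  · rcases h2 with h2 | h2
    · have h3 : u = w := smul_left_cancel g (h1.trans h2.symm)
      subst h3
      exact Or.inl ⟨h1, h1⟩
    · exact Or.inl ⟨h1, h2⟩
  · have h1' : g • u = w := h1
    rcases h2 with h2 | h2
    · exact Or.inr ⟨h1', h2⟩
    · have h2' : g • w = w := h2
      have h3 : u = w := smul_left_cancel g (h1'.trans h2'.symm)
      subst h3
      exact Or.inl ⟨h1', h1'⟩

theorem st_RSTAB (hRLOC : ST_RLOC) (hINF : ST_INF) : ST_RSTAB := by
  intro G _ D K P Q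
  obtain ⟨l1, l2, l3, l4⟩ := hRLOC G D K P Q
  obtain ⟨-, i2, -, i4⟩ := hINF G D
  have hb : ∀ x : K.V, stabilizer G (Sum.inl x : AV Q) = stabilizer G x := by
    intro x
    ext g
    rw [mem_stabilizer_iff, mem_stabilizer_iff]
    constructor
    · intro h
      exact Sum.inl_injective h
    · intro h
      show (Sum.inl (g • x) : AV Q) = Sum.inl x
      rw [h]
  have hc : ∀ (τ : Quot (TRel Q)) q, aadj Q (Sum.inr τ) q → ∃ u w, D.T.Adj u w ∧
      stabilizer G (Sum.inr τ : AV Q) ≤ stabilizer G u ⊓ stabilizer G w := by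
    intro τ q h
    rcases l4 _ _ h with ⟨x, -, hx⟩ | ⟨x, y, u, w, -, huw, -, -, hp⟩ | ⟨v, u, w, -, hax, hp⟩
    · exact absurd hx (by simp)
    · refine ⟨u, w, huw, fun g hg => ?_⟩
      rw [hp, mem_stabilizer_iff, ← tk_smul] at hg
      rcases pair_smul_eq (l1 _ _ _ _ _ _ _ _ hg) with h1 | h1
      · exact ⟨h1.1, h1.2⟩
      · exact absurd h1 (i4 g u w huw)
    · have huw : D.T.Adj u w := by
        rcases (P.fN v).1 u with h1 | h1
        · exact absurd h1 hax.2.2
        · rwa [hax.1] at h1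
      refine ⟨u, w, huw, fun g hg => ?_⟩
      rw [hp, mem_stabilizer_iff, ← tk_smul] at hg
      rcases pair_smul_eq (l3 _ _ _ _ _ _ hg) with h1 | h1
      · exact ⟨h1.1, h1.2⟩
      · exact absurd h1 (i4 g u w huw)
  refine ⟨?_, hc, hb⟩
  rintro (x | τ) q h
  · rw [hb]
    exact K.stab x
  · obtain ⟨u, w, huw, hle⟩ := hc τ q h
    obtain ⟨z, -, hz⟩ := i2 u w huw
    right
    rw [hz] at hle
    exact isCyclic_of_injective (Subgroup.inclusion hle) (Subgroup.inclusion_injective hle)

end Pool.Agent.Helper93.HZ
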